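import Pool.Agent.H31.RG.Base

set_option autoImplicit false

namespace Pool.Agent.H18.RG

open Pool.Agent.H31.RG Finset

lemma log_fac_lo (p : ℕ) (hp : 3 ≤ p) : 1 / (p : ℝ) ≤ Real.log ((p : ℝ) / (p - 1)) := by
  have hp3 : (3 : ℝ) ≤ p := by exact_mod_cast hp
  have h := Real.one_sub_inv_le_log_of_pos (x := (p : ℝ) / (p - 1))
    (div_pos (by linarith) (by linarith))
  rw [inv_div] at h
  have h2 : 1 - ((p : ℝ) - 1) / p = 1 / p := by
    have : (p : ℝ) ≠ 0 := by linarith
    field_simp; ring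
  linarith

lemma log_fac_hi (p : ℕ) (hp : 3 ≤ p) :
    Real.log ((p : ℝ) / (p - 1)) ≤ 1 / (p : ℝ) + 2 / (p : ℝ) ^ 2 := by
  have hp3 : (3 : ℝ) ≤ p := by exact_mod_cast hp
  have h := Real.log_le_sub_one_of_pos (x := (p : ℝ) / (p - 1))
    (div_pos (by linarith) (by linarith))
  have h2 : (p : ℝ) / (p - 1) - 1 = 1 / p + 1 / (p * (p - 1)) := by
    have h0 : (p : ℝ) ≠ 0 := by linarith
    have h1 : (p : ℝ) - 1 ≠ 0 := by linarith
    field_simp; ring
  have h3 : 1 / ((p : ℝ) * (p - 1)) ≤ 2 / (p : ℝ) ^ 2 := by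
    rw [div_le_div_iff₀ (by nlinarith) (by positivity)]
    nlinarith
  linarith

lemma E_eq (x : ℕ) : E x = Real.exp (∑ p ∈ (Finset.Icc 3 x).filter Nat.Prime,
    Real.log ((p : ℝ) / (p - 1))) := by
  rw [Real.exp_sum]
  unfold E
  refine Finset.prod_congr rfl fun p hp => ?_
  rw [Finset.mem_filter, Finset.mem_Icc] at hp
  have hp3 : (3 : ℝ) ≤ p := by exact_mod_cast hp.1.1
  rw [Real.exp_log (div_pos (by linarith) (by linarith))]

theorem stM1 : StM1 := by
  obtain ⟨K, hK⟩ := Pool.Agent.Helper256.KM.mertens_inv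
  have hs : Summable (fun n : ℕ => 2 / (n : ℝ) ^ 2) := by
    have := (Real.summable_one_div_nat_pow.2 (by norm_num : 1 < 2)).mul_left 2
    exact this.congr fun n => by ring
  set D := ∑' n : ℕ, 2 / (n : ℝ) ^ 2 with hD
  refine ⟨Real.exp (-K - 1 / 2), Real.exp (K + D), Real.exp_pos _, Real.exp_pos _, fun x hx => ?_⟩
  have hx3 : (3 : ℝ) ≤ x := by exact_mod_cast hx
  have hlog : 0 < Real.log x := Real.log_pos (by linarith)
  have hm := abs_le.mp (hK x hx)
  set S := ∑ p ∈ (Finset.Icc 1 x).filter Nat.Prime, (1 : ℝ) / p with hS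
  have hsub : (Finset.Icc 3 x).filter Nat.Prime ⊆ (Finset.Icc 1 x).filter Nat.Prime :=
    Finset.filter_subset_filter _ (Finset.Icc_subset_Icc_left (by norm_num))
  have h1 : ∑ p ∈ (Finset.Icc 3 x).filter Nat.Prime, (1 : ℝ) / p ≤ S :=
    Finset.sum_le_sum_of_subset_of_nonneg hsub fun p _ _ => by positivity
  have h2 : S ≤ 1 / 2 + ∑ p ∈ (Finset.Icc 3 x).filter Nat.Prime, (1 : ℝ) / p := by
    have h3 : (Finset.Icc 1 x).filter Nat.Prime ⊆ insert 2 ((Finset.Icc 3 x).filter Nat.Prime) := by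
      intro p hp
      rw [Finset.mem_filter, Finset.mem_Icc] at hp
      rw [Finset.mem_insert, Finset.mem_filter, Finset.mem_Icc]
      have := hp.2.two_le
      rcases Nat.lt_or_ge p 3 with h | h
      · left; omega
      · right; exact ⟨⟨h, hp.1.2⟩, hp.2⟩
    refine (Finset.sum_le_sum_of_subset_of_nonneg h3 fun p _ _ => by positivity).trans ?_
    rw [Finset.sum_insert (by simp)]
    norm_num
  rw [E_eq]
  have hll : Real.exp (Real.log (Real.log x)) = Real.log x := Real.exp_log hlog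
  constructor
  · have h4 : ∑ p ∈ (Finset.Icc 3 x).filter Nat.Prime, (1 : ℝ) / p ≤
        ∑ p ∈ (Finset.Icc 3 x).filter Nat.Prime, Real.log ((p : ℝ) / (p - 1)) := by
      refine Finset.sum_le_sum fun p hp => ?_
      rw [Finset.mem_filter, Finset.mem_Icc] at hp
      exact log_fac_lo p hp.1.1
    calc Real.exp (-K - 1 / 2) * Real.log x =
        Real.exp (-K - 1 / 2 + Real.log (Real.log x)) := by rw [Real.exp_add, hll]
      _ ≤ _ := Real.exp_le_exp.mpr (by linarith)
  · have h4 : ∑ p ∈ (Finset.Icc 3 x).filter Nat.Prime, Real.log ((p : ℝ) / (p - 1)) ≤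
        ∑ p ∈ (Finset.Icc 3 x).filter Nat.Prime, (1 : ℝ) / p +
        ∑ p ∈ (Finset.Icc 3 x).filter Nat.Prime, 2 / (p : ℝ) ^ 2 := by
      rw [← Finset.sum_add_distrib]
      refine Finset.sum_le_sum fun p hp => ?_
      rw [Finset.mem_filter, Finset.mem_Icc] at hp
      exact log_fac_hi p hp.1.1
    have h5 : ∑ p ∈ (Finset.Icc 3 x).filter Nat.Prime, 2 / (p : ℝ) ^ 2 ≤ D :=
      hs.sum_le_tsum _ fun n _ => by positivity
    calc _ ≤ Real.exp (K + D + Real.log (Real.log x)) := Real.exp_le_exp.mpr (by linarith)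
      _ = _ := by rw [Real.exp_add, hll]

lemma sum_le (t : Finset ℕ) : 1 + ∑ p ∈ t, (1 : ℝ) / p ≤ ∏ p ∈ t, (1 + (1 : ℝ) / p) := by
  classical
  induction t using Finset.induction_on with
  | empty => simp
  | insert a t ha ih =>
    rw [Finset.sum_insert ha, Finset.prod_insert ha]
    have h1 : 0 ≤ ∑ p ∈ t, (1 : ℝ) / p := Finset.sum_nonneg fun p _ => by positivity
    have h2 : (0 : ℝ) ≤ 1 / a := by positivity
    calc 1 + (1 / (a : ℝ) + ∑ p ∈ t, (1 : ℝ) / p) ≤
          (1 + 1 / (a : ℝ)) * (1 + ∑ p ∈ t, (1 : ℝ) / p) := by nlinarith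
      _ ≤ _ := mul_le_mul_of_nonneg_left ih (by linarith)

lemma E_mul (y x : ℕ) (h : y ≤ x) (h3 : 3 ≤ y) :
    E y * (1 + ∑ p ∈ (Finset.Ioc y x).filter Nat.Prime, (1 : ℝ) / p) ≤ E x := by
  have hsplit : (Finset.Icc 3 x).filter Nat.Prime =
      (Finset.Icc 3 y).filter Nat.Prime ∪ (Finset.Ioc y x).filter Nat.Prime := by
    ext p
    simp only [Finset.mem_filter, Finset.mem_Icc, Finset.mem_union, Finset.mem_Ioc]
    constructor
    · rintro ⟨⟨h1, h2⟩, h4⟩
      rcases Nat.lt_or_ge y p with h5 | h5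
      · right; exact ⟨⟨h5, h2⟩, h4⟩
      · left; exact ⟨⟨h1, h5⟩, h4⟩
    · rintro (⟨⟨h1, h2⟩, h4⟩ | ⟨⟨h1, h2⟩, h4⟩)
      · exact ⟨⟨h1, by omega⟩, h4⟩
      · exact ⟨⟨by omega, h2⟩, h4⟩
  have hdisj : Disjoint ((Finset.Icc 3 y).filter Nat.Prime) ((Finset.Ioc y x).filter Nat.Prime) := by
    rw [Finset.disjoint_left]
    intro p hp hq
    rw [Finset.mem_filter, Finset.mem_Icc] at hp
    rw [Finset.mem_filter, Finset.mem_Ioc] at hq
    omega
  have hE0 : 0 ≤ E y := by rw [E_eq]; exact (Real.exp_pos _).le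
  have h1 : E x = E y * ∏ p ∈ (Finset.Ioc y x).filter Nat.Prime, (p : ℝ) / (p - 1) := by
    unfold E
    rw [hsplit, Finset.prod_union hdisj]
  rw [h1]
  refine mul_le_mul_of_nonneg_left ((sum_le _).trans ?_) hE0
  refine Finset.prod_le_prod (fun p _ => by positivity) fun p hp => ?_
  rw [Finset.mem_filter] at hp
  exact Pool.Agent.Results.MP_e83726_nt.Gaps.fac p hp.2

lemma E_mono {y x : ℕ} (h : y ≤ x) : E y ≤ E x := by
  rw [E_eq, E_eq]
  refine Real.exp_le_exp.mpr ?_
  refine Finset.sum_le_sum_of_subset_of_nonneg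
    (Finset.filter_subset_filter _ (Finset.Icc_subset_Icc_right h)) fun p hp _ => ?_
  rw [Finset.mem_filter, Finset.mem_Icc] at hp
  exact le_trans (by positivity) (log_fac_lo p hp.1.1)

theorem stM2 : StM2 := by
  obtain ⟨c, _, hc, _, hE⟩ := stM1
  obtain ⟨C, hC⟩ := Pool.Agent.Helper256.KM.mertens_log
  have hC0 : 0 ≤ C := (abs_nonneg _).trans (hC 1 le_rfl)
  set ε := Real.exp (-2 * C - 1) with hε
  have hε0 : 0 < ε := Real.exp_pos _
  have hε1 : ε < 1 := by
    rw [hε, Real.exp_lt_one_iff]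
    linarith
  refine ⟨ε, c / 2, hε0, hε1, by positivity, ⌈16 / ε ^ 2⌉₊, fun x y hx hy => ?_⟩
  have hx' : 16 / ε ^ 2 ≤ x := (Nat.le_ceil _).trans (by exact_mod_cast hx)
  have hx16 : (16 : ℝ) ≤ x := by
    have h1 : (16 : ℝ) ≤ 16 / ε ^ 2 := by
      rw [le_div_iff₀ (by positivity)]
      nlinarith
    linarith
  have hx0 : (0 : ℝ) < x := by linarith
  set r := Real.sqrt x with hr
  have hr2 : r ^ 2 = x := Real.sq_sqrt hx0.le
  have hr4 : 4 / ε ≤ r := by
    rw [hr]
    apply Real.le_sqrt_of_sq_le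
    rw [div_pow]
    norm_num
    exact hx'
  have hr1 : 4 ≤ r := by
    have h1 : (4 : ℝ) ≤ 4 / ε := by
      rw [le_div_iff₀ hε0]
      linarith
    linarith
  have hεr : 4 ≤ ε * r := by
    rw [div_le_iff₀ hε0] at hr4
    linarith
  have hεx : 4 * r ≤ ε * x := by
    rw [← hr2]
    nlinarith
  set z := ⌊ε * x⌋₊ with hz
  have hyz : y ≤ z := Nat.le_floor hy
  have hz1 : ε * x - 1 < z := Nat.sub_one_lt_floor _
  have hz2 : (z : ℝ) ≤ ε * x := Nat.floor_le (by positivity)
  have hzr : r ≤ z := by linarith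
  have hz3 : 3 ≤ z := by
    have : (3 : ℝ) ≤ z := by linarith
    exact_mod_cast this
  have hzx : z ≤ x := by
    have : (z : ℝ) ≤ x := by nlinarith
    exact_mod_cast this
  have hz0 : (0 : ℝ) < z := by linarith
  have hlogx : 0 < Real.log x := Real.log_pos (by linarith)
  -- lower bound for the sum
  have hsum : 1 / Real.log x ≤ ∑ p ∈ (Finset.Ioc z x).filter Nat.Prime, (1 : ℝ) / p := by
    have h1 := abs_le.mp (hC x (by omega))
    have h2 := abs_le.mp (hC z (by omega))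
    have hsplit : (Finset.Icc 1 x).filter Nat.Prime =
        (Finset.Icc 1 z).filter Nat.Prime ∪ (Finset.Ioc z x).filter Nat.Prime := by
      ext p
      simp only [Finset.mem_filter, Finset.mem_Icc, Finset.mem_union, Finset.mem_Ioc]
      constructor
      · rintro ⟨⟨h1, h2⟩, h4⟩
        rcases Nat.lt_or_ge z p with h5 | h5
        · right; exact ⟨⟨h5, h2⟩, h4⟩
        · left; exact ⟨⟨h1, h5⟩, h4⟩
      · rintro (⟨⟨h1, h2⟩, h4⟩ | ⟨⟨h1, h2⟩, h4⟩)
        · exact ⟨⟨h1, by omega⟩, h4⟩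
        · exact ⟨⟨by omega, h2⟩, h4⟩
    have hdisj : Disjoint ((Finset.Icc 1 z).filter Nat.Prime)
        ((Finset.Ioc z x).filter Nat.Prime) := by
      rw [Finset.disjoint_left]
      intro p hp hq
      rw [Finset.mem_filter, Finset.mem_Icc] at hp
      rw [Finset.mem_filter, Finset.mem_Ioc] at hq
      omega
    rw [hsplit, Finset.sum_union hdisj] at h1
    have h3 : Real.log z ≤ Real.log x + (-2 * C - 1) := by
      have h4 : Real.log z ≤ Real.log (ε * x) := Real.log_le_log hz0 hz2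
      rw [Real.log_mul hε0.ne' hx0.ne', hε, Real.log_exp] at h4
      linarith
    have h4 : 1 ≤ ∑ p ∈ (Finset.Ioc z x).filter Nat.Prime, Real.log p / p := by
      linarith [h1.1, h2.2]
    have h5 : ∑ p ∈ (Finset.Ioc z x).filter Nat.Prime, Real.log p / p ≤
        Real.log x * ∑ p ∈ (Finset.Ioc z x).filter Nat.Prime, (1 : ℝ) / p := by
      rw [Finset.mul_sum]
      refine Finset.sum_le_sum fun p hp => ?_
      rw [Finset.mem_filter, Finset.mem_Ioc] at hp
      have hp0 : (0 : ℝ) < p := by exact_mod_cast hp.2.pos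
      have : Real.log p ≤ Real.log x := Real.log_le_log hp0 (by exact_mod_cast hp.1.2)
      rw [mul_one_div]
      exact div_le_div_of_nonneg_right this hp0.le
    rw [div_le_iff₀ hlogx]
    linarith
  have hEz : c / 2 * Real.log x ≤ E z := by
    have h1 := (hE z hz3).1
    have h2 : Real.log x ≤ 2 * Real.log z := by
      rw [← hr2, Real.log_pow]
      have : Real.log r ≤ Real.log z := Real.log_le_log (by linarith) hzr
      push_cast
      linarith
    nlinarith
  have h1 := E_mul z x hzx hz3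
  have h2 : E y ≤ E z := E_mono hyz
  have h3 : c / 2 ≤ E z * ∑ p ∈ (Finset.Ioc z x).filter Nat.Prime, (1 : ℝ) / p := by
    calc c / 2 = c / 2 * Real.log x * (1 / Real.log x) := by field_simp
      _ ≤ E z * ∑ p ∈ (Finset.Ioc z x).filter Nat.Prime, (1 : ℝ) / p := by
        apply mul_le_mul hEz hsum (by positivity)
        exact le_trans (by positivity) hEz
  linarith

end Pool.Agent.H18.RG
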